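import Pool.Agent.W692.NNDense
import Pool.Agent.W692.NNBasis

/-!
# MP_ada34c: `L_p(ℝ)` has a Schauder basis of non-negative functions (`1 < p < ∞`)
-/

set_option autoImplicit false

open Finset MeasureTheory Filter
open scoped ENNReal Topology

namespace Pool.Agent.Results.MP_ada34c_an.NonnegBasis

open Pool.Agent.W692.NN

/-- For every `1 < p < ∞` the real Banach space `L_p(ℝ)` has a Schauder basis consisting of
non-negative functions. -/
theorem result (p : ℝ≥0∞) [Fact (1 ≤ p)] (hp1 : 1 < p) (hp : p ≠ ∞) :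
    ∃ f : ℕ → Lp ℝ p (volume : Measure ℝ),
      (∀ n, ∀ᵐ x ∂(volume : Measure ℝ), 0 ≤ f n x) ∧
      ∀ g : Lp ℝ p (volume : Measure ℝ), ∃! a : ℕ → ℝ,
        Tendsto (fun N => ∑ n ∈ range N, a n • f n) atTop (𝓝 g) := by
  have h1p : 1 < p.toReal := by
    have := (ENNReal.toReal_lt_toReal ENNReal.one_ne_top hp).2 hp1
    simpa using this
  have F : Frame p.toReal (hb p) (un p) (hbs p) (us p) :=
    { hh := hbs_hb
      hu := hbs_un
      uh := us_hb
      uu := us_un
      nh := norm_hb hp h1p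
      Hb := H_bound hp h1p
      Wb := W_bound hp h1p
      nu := us_nrm hp h1p
      un := norm_un_sum hp h1p
      hb := hbs_bound hp h1p
      dense := gen_dense hp }
  have hblk : ∀ b : ℕ, ∃ (N : ℕ) (f : ℕ → ℕ → ℝ) (α : ℕ → ℝ) (φ : ℕ → ℕ → ℝ) (ψ δ : ℕ → ℝ),
      Blk p.toReal ((1 / 4 : ℝ) * (1 / 2) ^ b) N f α φ ψ δ := fun b =>
    exists_blk h1p (by positivity)
  choose N f α φ ψ δ B using hblk
  obtain ⟨g, hg1, hg2⟩ := final F B (fun b => by positivity)
    (summable_geometric_two.mul_left _) (by rw [tsum_mul_left, tsum_geometric_two]; norm_num)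
    (fun b => |hb p b|) (fun b => by rw [norm_abs_eq_norm, norm_hb hp h1p])
  refine ⟨g, fun n => ?_, hg2⟩
  obtain ⟨b, i, hi, hgn⟩ := hg1 n
  rw [hgn]
  unfold G
  set c : ℝ := ∑ j ∈ range (N b), δ b j * f b i j with hc
  have hαc : |α b i| ≤ c := (B b).cone i hi
  filter_upwards [Lp.coeFn_add (∑ j ∈ range (N b), f b i j • un p (off N b + j) +
      α b i • hb p b) (c • |hb p b|),
    Lp.coeFn_add (∑ j ∈ range (N b), f b i j • un p (off N b + j)) (α b i • hb p b),
    Lp.coeFn_smul c |hb p b|, Lp.coeFn_smul (α b i) (hb p b), Lp.coeFn_abs (hb p b),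
    sum_ind_coeFn (p := p) (range (N b)) (fun j => f b i j) (fun j => zz (off N b + j) + ps 0)
      (fun _ => wd 0)] with x h1 h2 h3 h4 h5 h6
  rw [h1, Pi.add_apply, h2, Pi.add_apply, h3, h4, Pi.smul_apply, Pi.smul_apply, h5,
    smul_eq_mul, smul_eq_mul]
  have h7 : 0 ≤ (∑ j ∈ range (N b), f b i j • un p (off N b + j) : E p) x := by
    unfold un iD
    rw [h6]
    exact Finset.sum_nonneg fun j _ => mul_nonneg ((B b).f_nonneg i j)
      (Set.indicator_nonneg (fun _ _ => zero_le_one) _)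
  have h8 : -(α b i * hb p b x) ≤ c * |hb p b x| := by
    calc -(α b i * hb p b x) ≤ |α b i * hb p b x| := neg_le_abs _
      _ = |α b i| * |hb p b x| := abs_mul _ _
      _ ≤ c * |hb p b x| := mul_le_mul_of_nonneg_right hαc (abs_nonneg _)
  linarith

end Pool.Agent.Results.MP_ada34c_an.NonnegBasis
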